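import Pool.Agent.Y5.V.Stm

/-! Symmetrisation of the trilinear form for trigonometric polynomials. -/

open Set Filter Topology
open scoped ComplexConjugate

set_option autoImplicit false

namespace Pool.Agent.Y884.VL.Tri1

open Pool.Agent.Y6.M (Z3 C3 Coef dt kc cj nsq len adv)
open Pool.Agent.Y5.V (nm S_TRI1)

lemma fin_ball (R : ℕ) : {k : Z3 | nsq k ≤ R}.Finite := by
  refine (Set.finite_Icc (fun _ : Fin 3 => -(R : ℤ)) (fun _ => (R : ℤ))).subset ?_
  intro k hk
  have h1 : ∀ j, |k j| ≤ R := fun j =>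
    le_trans ((Int.le_self_sq _).trans (sq_abs _).le) (le_trans (Finset.single_le_sum (f := fun j => k j ^ 2)
      (fun i _ => sq_nonneg _) (Finset.mem_univ j)) hk)
  exact ⟨fun j => (abs_le.1 (h1 j)).1, fun j => (abs_le.1 (h1 j)).2⟩

lemma nm_nonneg (a : C3) : 0 ≤ nm a := Real.sqrt_nonneg _

lemma nm_zero : nm (0 : C3) = 0 := by
  unfold nm Pool.Agent.Y5.V.sq
  simp

lemma nm_cj (a : C3) : nm (cj a) = nm a := by
  unfold nm Pool.Agent.Y5.V.sq cj
  simp

lemma nm_kc (k : Z3) : nm (kc k) = len k := by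
  unfold nm Pool.Agent.Y5.V.sq kc len nsq
  congr 1
  push_cast
  refine Finset.sum_congr rfl fun j _ => ?_
  rw [Complex.norm_intCast, sq_abs]

lemma dt_le (a b : C3) : ‖dt a b‖ ≤ nm a * nm b := by
  unfold dt nm Pool.Agent.Y5.V.sq
  refine (norm_sum_le _ _).trans ?_
  simp_rw [norm_mul]
  exact Real.sum_mul_le_sqrt_mul_sqrt _ _ _

lemma dt_comm (a b : C3) : dt a b = dt b a := by
  unfold dt
  exact Finset.sum_congr rfl fun j _ => mul_comm _ _

lemma dt_add (a b c : C3) : dt a (b + c) = dt a b + dt a c := by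
  unfold dt
  rw [← Finset.sum_add_distrib]
  exact Finset.sum_congr rfl fun j _ => mul_add _ _ _

lemma dt_neg (a b : C3) : dt a (-b) = -dt a b := by
  unfold dt
  rw [← Finset.sum_neg_distrib]
  exact Finset.sum_congr rfl fun j _ => mul_neg _ _

lemma dt_zero_left (b : C3) : dt 0 b = 0 := by
  unfold dt
  simp

lemma dt_zero_right (b : C3) : dt b 0 = 0 := by
  unfold dt
  simp

lemma kc_neg (k : Z3) : kc (-k) = -kc k := by
  funext j
  simp [kc]

lemma kc_sub (k q : Z3) : kc k = kc q + kc (k - q) := by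
  funext j
  simp [kc]

lemma cj_zero : cj 0 = 0 := by
  funext j
  simp [cj]

/-- the terms of the trilinear form -/
noncomputable def A (V : Coef) (k q : Z3) : ℂ := dt (V (k - q)) (kc q) * dt (V q) (cj (V k))

lemma A_sw (V : Coef) (hdiv : ∀ k, dt (kc k) (V k) = 0) (k q : Z3) :
    dt (V (k - q)) (kc k) = dt (V (k - q)) (kc q) := by
  rw [kc_sub k q, dt_add, dt_comm _ (kc (k - q)), hdiv, add_zero]

lemma A_anti (V : Coef) (hre : ∀ k j, V (-k) j = conj (V k j))
    (hdiv : ∀ k, dt (kc k) (V k) = 0) (k q : Z3) : A V (-q) (-k) = -A V k q := by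
  have h1 : ∀ k, V (-k) = cj (V k) := fun k => funext fun j => hre k j
  have h2 : ∀ a : C3, cj (cj a) = a := fun a => funext fun j => by simp [cj]
  unfold A
  have h3 : -q - -k = k - q := by abel
  rw [h3, kc_neg, dt_neg, A_sw V hdiv, h1 k, h1 q, h2, dt_comm (cj (V k))]
  ring

lemma A_le (V : Coef) (hdiv : ∀ k, dt (kc k) (V k) = 0) (k q : Z3) :
    ‖A V k q‖ ≤ min (len k) (len q) * (nm (V (k - q)) * nm (V q) * nm (V k)) := by
  have h1 : ‖dt (V (k - q)) (kc q)‖ ≤ nm (V (k - q)) * min (len k) (len q) := by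
    rcases le_total (len k) (len q) with h | h
    · rw [min_eq_left h, ← A_sw V hdiv k q, ← nm_kc k]
      exact dt_le _ _
    · rw [min_eq_right h, ← nm_kc q]
      exact dt_le _ _
  have h2 : ‖dt (V q) (cj (V k))‖ ≤ nm (V q) * nm (V k) := by
    rw [← nm_cj (V k)]
    exact dt_le _ _
  have h3 : 0 ≤ nm (V (k - q)) * min (len k) (len q) :=
    mul_nonneg (nm_nonneg _) (le_min (Real.sqrt_nonneg _) (Real.sqrt_nonneg _))
  unfold A
  rw [norm_mul]
  refine (mul_le_mul h1 h2 (norm_nonneg _) h3).trans (le_of_eq ?_)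
  ring

/-- the equivalence `(k, q) ↦ (-q, -k)` -/
def sw : Z3 × Z3 ≃ Z3 × Z3 where
  toFun p := (-p.2, -p.1)
  invFun p := (-p.2, -p.1)
  left_inv p := by simp
  right_inv p := by simp

theorem t_TRI1 : S_TRI1 := by
  intro ω R V hω hR h0 hre hdiv
  set S : Finset Z3 := (fin_ball R).toFinset with hS
  have hVS : ∀ k, k ∉ S → V k = 0 := by
    intro k hk
    refine hR k ?_
    by_contra h
    exact hk (by simpa [hS] using not_lt.1 h)
  -- the sum over `q`
  have hadv : ∀ k, ∑ j, conj (V k j) * adv V k j =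
      ∑' q : Z3, 2 * Real.pi * Complex.I * A V k q := by
    intro k
    have h1 : ∀ j, adv V k j = ∑ q ∈ S, 2 * Real.pi * Complex.I * dt (V (k - q)) (kc q) * V q j := by
      intro j
      unfold adv
      rw [← (Equiv.subLeft k).tsum_eq, tsum_eq_sum (s := S)]
      · refine Finset.sum_congr rfl fun q _ => ?_
        simp [Equiv.subLeft_apply]
      · intro q hq
        simp [Equiv.subLeft_apply, hVS q hq]
    rw [tsum_eq_sum (s := S)]
    · simp_rw [h1, Finset.mul_sum]
      rw [Finset.sum_comm]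
      refine Finset.sum_congr rfl fun q _ => ?_
      unfold A
      conv_rhs => rw [dt]
      rw [show dt (V q) (cj (V k)) = ∑ j, V q j * conj (V k j) from rfl, Finset.mul_sum,
        Finset.mul_sum]
      refine Finset.sum_congr rfl fun j _ => ?_
      unfold dt
      ring
    · intro q hq
      unfold A
      rw [hVS q hq, dt_zero_left, mul_zero, mul_zero]
  set f : Z3 × Z3 → ℝ := fun p => ω p.1 * (2 * Real.pi * Complex.I * A V p.1 p.2).re with hf
  have hf0 : ∀ p, p ∉ S ×ˢ S → f p = 0 := by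
    intro p hp
    rw [Finset.mem_product, not_and_or] at hp
    rcases hp with hp | hp
    · simp only [hf, A]
      rw [hVS _ hp, cj_zero, dt_zero_right, mul_zero, mul_zero]
      simp
    · simp only [hf, A]
      rw [hVS _ hp, dt_zero_left, mul_zero, mul_zero]
      simp
  have hfs : Summable f := summable_of_ne_finset_zero (s := S ×ˢ S) hf0
  have hT : ∑' k, ω k * (∑ j, conj (V k j) * adv V k j).re = ∑' p, f p := by
    rw [tsum_eq_sum (s := S ×ˢ S) (fun p hp => hf0 p hp), tsum_eq_sum (s := S),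
      Finset.sum_product]
    · refine Finset.sum_congr rfl fun k _ => ?_
      rw [hadv k, tsum_eq_sum (s := S), Complex.re_sum, Finset.mul_sum]
      intro q hq
      unfold A
      rw [hVS q hq, dt_zero_left, mul_zero, mul_zero]
    · intro k hk
      rw [hVS k hk]
      simp
  have hsw : ∀ p, f (sw p) = -(ω p.2 * (2 * Real.pi * Complex.I * A V p.1 p.2).re) := by
    intro p
    show ω (-p.2) * (2 * Real.pi * Complex.I * A V (-p.2) (-p.1)).re = _
    rw [hω, A_anti V hre hdiv, mul_neg, Complex.neg_re, mul_neg]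
  have h2T : 2 * ∑' p, f p =
      ∑' p : Z3 × Z3, (ω p.1 - ω p.2) * (2 * Real.pi * Complex.I * A V p.1 p.2).re := by
    have h1 : ∑' p, f (sw p) = ∑' p, f p := sw.tsum_eq f
    have h2 : Summable (fun p => f (sw p)) := (sw.summable_iff (f := f)).2 hfs
    rw [two_mul]
    nth_rewrite 2 [← h1]
    rw [← hfs.tsum_add h2]
    refine tsum_congr fun p => ?_
    rw [hsw]
    simp only [hf]
    ring
  rw [hT]
  have hb : ∀ p : Z3 × Z3, |(ω p.1 - ω p.2) * (2 * Real.pi * Complex.I * A V p.1 p.2).re| ≤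
      2 * Real.pi * (|ω p.1 - ω p.2| * min (len p.1) (len p.2) *
      (nm (V (p.1 - p.2)) * nm (V p.2) * nm (V p.1))) := by
    intro p
    rw [abs_mul]
    have h1 : |(2 * Real.pi * Complex.I * A V p.1 p.2).re| ≤ 2 * Real.pi * ‖A V p.1 p.2‖ := by
      refine (Complex.abs_re_le_norm _).trans (le_of_eq ?_)
      simp [abs_of_pos Real.pi_pos]
    have h2 := A_le V hdiv p.1 p.2
    calc |ω p.1 - ω p.2| * |(2 * Real.pi * Complex.I * A V p.1 p.2).re|
        ≤ |ω p.1 - ω p.2| * (2 * Real.pi * (min (len p.1) (len p.2) *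
          (nm (V (p.1 - p.2)) * nm (V p.2) * nm (V p.1)))) := by
          refine mul_le_mul_of_nonneg_left (h1.trans ?_) (abs_nonneg _)
          exact mul_le_mul_of_nonneg_left h2 (by positivity)
      _ = _ := by ring
  have hgs : Summable fun p : Z3 × Z3 => |ω p.1 - ω p.2| * min (len p.1) (len p.2) *
      (nm (V (p.1 - p.2)) * nm (V p.2) * nm (V p.1)) := by
    refine summable_of_ne_finset_zero (s := S ×ˢ S) fun p hp => ?_
    rw [Finset.mem_product, not_and_or] at hp
    rcases hp with hp | hp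
    · rw [hVS _ hp, nm_zero]
      ring
    · rw [hVS _ hp, nm_zero]
      ring
  have hgs2 := hgs.mul_left (2 * Real.pi)
  have hgs3 : Summable fun p : Z3 × Z3 =>
      |(ω p.1 - ω p.2) * (2 * Real.pi * Complex.I * A V p.1 p.2).re| :=
    Summable.of_nonneg_of_le (fun _ => abs_nonneg _) hb hgs2
  have h3 : |2 * ∑' p, f p| ≤ 2 * Real.pi * ∑' p : Z3 × Z3, |ω p.1 - ω p.2| *
      min (len p.1) (len p.2) * (nm (V (p.1 - p.2)) * nm (V p.2) * nm (V p.1)) := by
    rw [h2T, ← tsum_mul_left]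
    refine (?_ : _ ≤ ∑' p : Z3 × Z3,
      |(ω p.1 - ω p.2) * (2 * Real.pi * Complex.I * A V p.1 p.2).re|).trans
      (hgs3.tsum_le_tsum hb hgs2)
    have := norm_tsum_le_tsum_norm (f := fun p : Z3 × Z3 =>
      (ω p.1 - ω p.2) * (2 * Real.pi * Complex.I * A V p.1 p.2).re)
      (by simpa only [Real.norm_eq_abs] using hgs3)
    simpa only [Real.norm_eq_abs] using this
  rw [abs_mul, abs_two] at h3
  linarith

end Pool.Agent.Y884.VL.Tri1
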